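import Mathlib
import Pool.Agent.X329.Grid.Proj

/-!
# Almost grid-free hypersurfaces in `P ^ 2 × P ^ 2` are not of bounded degree up to Cremona

The hypersurface `dJ k` is the preimage of the incidence `x_0 u_0 + x_1 u_1 + x_2 u_2 = 0` under
`id × φ`, where `φ` is the rational map of degree two
`(y_0 : y_1 : y_2) ↦ (y_0 ^ (2 k + 1) y_2 : y_0 ^ (2 k) y_1 y_2 : y_0 ^ (2 k) y_2 ^ 2 + y_1 ^ (2 k + 2))`
of the plane to itself (a rational double plane). It is irreducible, of bidegree `(1, 2 k + 2)` and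
almost-`(2, 3)`-grid-free. If it is almost equal to `F ∘ (id × σ) = 0` for a Cremona transformation
`σ`, then the degree of `F` in `y` is at least `k / 5` (by the theorem of Mason and Stothers on a
general line). So no `d (2, t)` exists for `t ≥ 3`.
-/

set_option autoImplicit false

namespace Pool.Agent.Results.MP_b5dac0_ag.DoublePlanes

open Pool.Agent.X329.Grid

/-- The last part is the negation of the conjecture: it is not true that for all `s, t ≥ 1` there is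
a number `d` such that for every irreducible almost-`(s, t)`-grid-free hypersurface `P = 0` there are
`σ` and `F` of degree at most `d` in `y` with `P = 0` almost equal to `F ∘ (id × σ) = 0`. -/
theorem result :
    (∀ k : ℕ, Irreducible (dJ k) ∧ IsBihom (dJ k) 1 (2 * k + 2) ∧
      ∀ t : ℕ, 3 ≤ t → AlmostGridFree 2 t (zeroLocus (dJ k))) ∧
    (∀ (k : ℕ) (σ : Fin 3 → MvPolynomial (Fin 3) ℂ) (F : Poly 2) (a b : ℕ), IsCremona σ →
      IsBihom F a b → AlmostEqual (zeroLocus (dJ k)) (zeroLocus (pull σ F)) → k ≤ 5 * b) ∧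
    (∀ t : ℕ, 3 ≤ t → ¬ ∃ d : ℕ, ∀ P : Poly 2, Irreducible P → (∃ a b, IsBihom P a b) →
      AlmostGridFree 2 t (zeroLocus P) →
        ∃ (σ : Fin 3 → MvPolynomial (Fin 3) ℂ) (F : Poly 2), IsCremona σ ∧
          (∃ a b, IsBihom F a b ∧ b ≤ d) ∧ AlmostEqual (zeroLocus P) (zeroLocus (pull σ F))) ∧
    ¬ ∀ s t : ℕ, 1 ≤ s → 1 ≤ t → ∃ d : ℕ, ∀ P : Poly s, Irreducible P →
      (∃ a b, IsBihom P a b) → AlmostGridFree s t (zeroLocus P) →
        ∃ (σ : Fin (s + 1) → MvPolynomial (Fin (s + 1)) ℂ) (F : Poly s), IsCremona σ ∧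
          (∃ a b, IsBihom F a b ∧ b ≤ d) ∧ AlmostEqual (zeroLocus P) (zeroLocus (pull σ F)) := by
  have h1 : ∀ (k : ℕ) (σ : Fin 3 → MvPolynomial (Fin 3) ℂ) (F : Poly 2) (a b : ℕ), IsCremona σ →
      IsBihom F a b → AlmostEqual (zeroLocus (dJ k)) (zeroLocus (pull σ F)) → k ≤ 5 * b := by
    intro k σ F a b hσ hF h
    by_contra hcon
    exact not_almostEqual (by omega) hF hσ h
  have h2 : ∀ t : ℕ, 3 ≤ t → ¬ ∃ d : ℕ, ∀ P : Poly 2, Irreducible P → (∃ a b, IsBihom P a b) →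
      AlmostGridFree 2 t (zeroLocus P) →
        ∃ (σ : Fin 3 → MvPolynomial (Fin 3) ℂ) (F : Poly 2), IsCremona σ ∧
          (∃ a b, IsBihom F a b ∧ b ≤ d) ∧ AlmostEqual (zeroLocus P) (zeroLocus (pull σ F)) := by
    rintro t ht ⟨d, hd⟩
    obtain ⟨σ, F, hσ, ⟨a, b, hF, hb⟩, h⟩ := hd (dJ (5 * d + 1)) (irreducible_dJ _)
      ⟨_, _, isBihom_dJ _⟩ (almostGridFree_dJ _ t ht)
    have := h1 _ σ F a b hσ hF h
    omega
  refine ⟨fun k => ⟨irreducible_dJ k, isBihom_dJ k, fun t ht => almostGridFree_dJ k t ht⟩, h1, h2,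
    ?_⟩
  intro h
  exact h2 3 le_rfl (h 2 3 (by norm_num) (by norm_num))

end Pool.Agent.Results.MP_b5dac0_ag.DoublePlanes
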